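import Pool.Agent.Helper33.OtterLimit

/-!
Connected regular graphs of large degree have as many non-isomorphic spanning trees as the
complete graph, up to an arbitrarily small loss in the exponential base.
-/

open Filter Topology Pool.Agent.Helper33.Otter

theorem Pool.Agent.Results.MP_2173a2_co.OtterRegular.result : ∃ α : ℝ,
    Tendsto (fun n : ℕ => (numUnlabeledSpanningTrees (⊤ : SimpleGraph (Fin n)) : ℝ) ^
      (1 / (n : ℝ))) atTop (𝓝 α) ∧
    (∀ α' C : ℝ, 0 < α' → 0 < C →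
      Tendsto (fun n : ℕ => (numUnlabeledSpanningTrees (⊤ : SimpleGraph (Fin n)) : ℝ) /
        (C * (n : ℝ) ^ (-5 / 2 : ℝ) * α' ^ n)) atTop (𝓝 1) → α' = α) ∧
    1 ≤ α ∧
    ∀ ε : ℝ, 0 < ε → ε ≤ α → ∃ d₀ : ℕ, 0 < d₀ ∧
      ∀ d ≥ d₀, ∀ (n : ℕ) (G : SimpleGraph (Fin n)),
        G.Connected → (∀ v, (G.neighborSet v).ncard = d) →
        (α - ε) ^ n ≤ (numUnlabeledSpanningTrees G : ℝ) :=
  Pool.Agent.Helper33.Otter.main
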